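import Pool.Agent.Run7.h844.RP.PwE3
import Pool.Agent.Run7.h844.RP.PwG
import Pool.Agent.Results.MP_48b1c3_nt.FewExceptions

/-!
# Lenstra's density for almost all groups generated by the values of generalised polynomials at primes

Method: exponential sums over primes with the phase of a generalised polynomial: derivative bounds uniform in the
coefficients, van der Corput differencing of all orders, bilinear sums, Vaughan's identity (after `Pool.Agent.H895R3.NK`,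
`Pool.Agent.H373R2.T7`), with a power saving at all frequencies up to a power, and a discrete Fejér kernel for the passage to
the integer parts (library `Pool.Agent.Run7.h844.RP`). The passage from such exponential sums to sums over primes of
functions of residues, for almost all members, is from the starting files (`Pool.Agent.R459.Eq`; the density series and the
counting functions are those of the starting result `FewExceptions` of this problem).
-/

set_option autoImplicit false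

namespace Pool.Agent.Results.MP_48b1c3_nt.ValuesAtPrimes

open Finset Filter NumberField
open Pool.Agent.R459.EqD (cntZ)
open Pool.Agent.H771R4.SE (Dat cntE)

/-- The generalised polynomial `∑ a x * t ^ x`, `x ∈ Q`, with real exponents and coefficients. -/
noncomputable def genPoly (Q : Finset ℝ) (a : ℝ → ℝ) (t : ℝ) : ℝ := ∑ x ∈ Q, a x * t ^ x

/-- `c` is the largest exponent; it is positive and not an integer, and its coefficient is not zero. -/
def Leading (Q : Finset ℝ) (a : ℝ → ℝ) (c : ℝ) : Prop :=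
  c ∈ Q ∧ (∀ x ∈ Q, x ≤ c) ∧ 0 < c ∧ (∀ m : ℕ, c ≠ m) ∧ a c ≠ 0

open Classical in
/-- Almost all the integers `n = c₀ + κ ⌊g(q) + z⌋`, where `N < q ≤ 2 N` is prime, up to a proportion of at most `τ` of these
primes `q`, have the property `P`. -/
def Almost (g : ℝ → ℝ) (N : ℕ) (z : ℝ) (κ c₀ : ℤ) (τ : ℝ) (P : ℤ → Prop) : Prop :=
  (((Ioc N (2 * N)).filter (fun q : ℕ => q.Prime ∧ ¬ P (c₀ + κ * ⌊g q + z⌋))).card : ℝ) ≤
    τ * ((Ioc N (2 * N)).filter Nat.Prime).card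

lemma almost_of {F : Finset ℝ} {b : ℝ → ℝ} {N : ℕ} {z : ℝ} {κ c₀ : ℤ} {τ : ℝ} {P Q : ℤ → Prop}
    (h : Pool.Agent.Run7.h844.RP.AlmostI (Pool.Agent.Run7.h844.RP.PB N) (Pool.Agent.Run7.h844.RP.vz F b z) κ c₀ τ P)
    (hPQ : ∀ n, P n → Q n) : Almost (genPoly F b) N z κ c₀ τ Q := by
  have h1 := Pool.Agent.Run7.h844.RP.AlmostI.mono h hPQ
  unfold Pool.Agent.Run7.h844.RP.AlmostI Pool.Agent.Run7.h844.RP.PB at h1
  rw [filter_filter] at h1
  unfold Almost
  convert h1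
  rfl

/-- `|cf x - δ π(x)| ≤ ε π(x)` for EVERY `x` with `X ≤ x ≤ y`. -/
def Holds (cf : ℕ → ℕ) (δ ε : ℝ) (X : ℕ) (y : ℝ) : Prop :=
  ∀ x : ℕ, X ≤ x → (x : ℝ) ≤ y → |(cf x : ℝ) - δ * (Nat.primeCounting x : ℝ)| ≤ ε * (Nat.primeCounting x : ℝ)

/-- the integer `n` is positive and exactly divisible by a prime `p > P` -/
def Generic (P : ℕ) (n : ℤ) : Prop := 0 < n ∧ ∃ p : ℕ, p.Prime ∧ P < p ∧ (p : ℤ) ∣ n ∧ ¬ ((p : ℤ) ^ 2 ∣ n)

lemma cntZ_nat (d : Dat) (n x : ℕ) : cntZ d (n : ℤ) x = cntE d n x := by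
  classical
  unfold cntZ cntE Pool.Agent.H386R2.Artin.PP
  rw [filter_filter]
  apply congrArg Finset.card
  apply Finset.filter_congr
  intro p _
  rw [Int.cast_natCast]

/-- Let `g(t) = ∑ b x t ^ x` be a generalised polynomial whose largest exponent `c` is positive and not an integer. There is
`θ > 0` such that for all `κ ≠ 0` the following holds. Let `(F, C, m)` be as in Q1, let `W₀` be a finitely generated subgroup of
`ℚˣ`, `D ∈ ℚˣ`, and `r ≥ 1` such that `ℓ ^ (ν_ℓ(m) + 1)` divides `r` for all primes `ℓ ∣ r` (every `r` if `m = 1`), `ε > 0`.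
There are `C'`, `P` and `X₀` such that for all `X, N ≥ X₀`, all real `z` and all integers `c₀` almost all the integers
`n = c₀ + κ ⌊g(q) + z⌋`, where `q` runs over the primes `N < q ≤ 2 N`, with a proportion of at most `C' log X / X` of exceptions,
have the following property, if they are positive and exactly divisible by some prime `p > P`: for EVERY `x` with
`X ≤ x ≤ N ^ θ`, the number of the primes up to `x` in `𝒮(F, C, ⟨W₀, D n ^ r⟩, m)` is `δ(F, C, ⟨W₀, D n ^ r⟩, m) π(x)` up to an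
error of at most `ε π(x)`. -/
theorem result (Q : Finset ℝ) (b : ℝ → ℝ) (c : ℝ) (hQ : Leading Q b c) :
    ∃ θ : ℝ, 0 < θ ∧ ∀ κ : ℤ, κ ≠ 0 →
      ∀ (F : IntermediateField ℚ (AlgebraicClosure ℚ)) [NumberField F] [IsGalois ℚ F]
        (C : Set (F ≃ₐ[ℚ] F)) (W₀ : Subgroup ℚˣ) (m : ℕ) (D : ℚˣ) (r : ℕ),
        (∀ σ ∈ C, ∀ τ : F ≃ₐ[ℚ] F, τ * σ * τ⁻¹ ∈ C) → W₀.FG → 0 < m →
        0 < r → (∀ l : ℕ, l.Prime → l ∣ r → l ^ (m.factorization l + 1) ∣ r) →
        ∀ ε : ℝ, 0 < ε → ∃ (C' : ℝ) (P X₀ : ℕ), ∀ X N : ℕ, X₀ ≤ X → X₀ ≤ N → ∀ (z : ℝ) (c₀ : ℤ),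
          Almost (genPoly Q b) N z κ c₀ (C' * (Real.log X / X)) (fun n => Generic P n →
            Holds (FewExceptions.S F C (W₀ ⊔ Subgroup.closure {w : ℚˣ | (w : ℚ) = (D : ℚ) * (n : ℚ) ^ r}) m)
              (FewExceptions.δ F C (W₀ ⊔ Subgroup.closure {w : ℚˣ | (w : ℚ) = (D : ℚ) * (n : ℚ) ^ r}) m) ε X
              ((N : ℝ) ^ θ)) := by
  classical
  obtain ⟨β, hβ, _, N₀, hfam⟩ := Pool.Agent.Run7.h844.RP.primes_fam Q c hQ.1 hQ.2.2.2.1 hQ.2.2.1 hQ.2.1 b hQ.2.2.2.2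
  obtain ⟨W, hW, H⟩ := Pool.Agent.Run7.h844.RP.ip_dat
  have hW0 : (0 : ℝ) < W := by exact_mod_cast hW
  refine ⟨β / W, by positivity, fun κ hκ F _ _ C W₀ m D r hC hW₀ hm hr hrm ε hε => ?_⟩
  obtain ⟨d, hd⟩ := Pool.Agent.W171.LG.coreR F C W₀ m D hC hW₀ hm.ne' hr hrm
  obtain ⟨P0, x0, hcore⟩ := hd ε hε
  obtain ⟨C', X₀, _, _, h⟩ := H κ hκ d (ε / 2) (by positivity)
  refine ⟨C', P0, X₀ + x0 + N₀, fun X N hX hN z c₀ => ?_⟩
  refine almost_of (h X (by omega) ℕ _ _ _ (hfam N (by omega) z) c₀) fun n hn hgen x hx1 hx2 => ?_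
  obtain ⟨hn0, p, hp, hpP, hpn, hp2⟩ := hgen
  obtain ⟨n', rfl⟩ : ∃ n' : ℕ, n = n' := ⟨n.toNat, (Int.toNat_of_nonneg hn0.le).symm⟩
  have hn0' : n' ≠ 0 := by omega
  have hG : Pool.Agent.W171.LG.Gen P0 n' := ⟨p, hp, hpP, by exact_mod_cast hpn, fun h => hp2 (by exact_mod_cast h)⟩
  by_contra hcon
  push Not at hcon
  have h5 := hn x hx1 (Pool.Agent.Run7.h844.RP.le_pow_of hW hx2)
  rw [cntZ_nat] at h5
  rw [Int.cast_natCast, Pool.Agent.W171.LG.gp_eqR W₀ D r hn0'] at hcon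
  have h6 := hcore n' hn0' hG x (by omega) hcon
  linarith

end Pool.Agent.Results.MP_48b1c3_nt.ValuesAtPrimes
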